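import Pool.Agent.W213.Ly.NoCodeStm
import Pool.Agent.H177R2.SD.Brc

/-! No 36 words of length 6 over 6 letters pairwise agree at most once (for MP_24331d_lc). -/

set_option autoImplicit false

open Finset

namespace Pool.Agent.W639.Ly

open Pool.Agent.H177R2.SD

/-- the hypothesis -/
def Hy (f : Fin 36 → Fin 6 → Fin 6) : Prop :=
  ∀ P Q : Fin 36, P ≠ Q → ∀ k l : Fin 6, f P k = f Q k → f P l = f Q l → k = l

variable {f : Fin 36 → Fin 6 → Fin 6}

theorem eq_of_two (h : Hy f) {k l : Fin 6} (hkl : k ≠ l) {P Q : Fin 36} (h1 : f P k = f Q k)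
    (h2 : f P l = f Q l) : P = Q := by
  by_contra hne
  exact hkl (h P Q hne k l h1 h2)

theorem ex_point (h : Hy f) {k l : Fin 6} (hkl : k ≠ l) (v w : Fin 6) :
    ∃ P, f P k = v ∧ f P l = w := by
  have hb : Function.Bijective (fun P : Fin 36 => (f P k, f P l)) := by
    rw [Fintype.bijective_iff_injective_and_card]
    refine ⟨fun P Q hPQ => ?_, by simp⟩
    have := Prod.ext_iff.1 hPQ
    exact eq_of_two h hkl this.1 this.2
  obtain ⟨P, hP⟩ := hb.2 (v, w)
  exact ⟨P, (Prod.ext_iff.1 hP).1, (Prod.ext_iff.1 hP).2⟩

theorem line_card (h : Hy f) (k v : Fin 6) : (univ.filter (fun P => f P k = v)).card = 6 := by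
  obtain ⟨l, hl⟩ : ∃ l : Fin 6, k ≠ l := (exists_ne k).imp fun _ h => h.symm
  have : (univ.filter (fun P => f P k = v)).card = (univ : Finset (Fin 6)).card := by
    refine Finset.card_bij (fun P _ => f P l) (fun _ _ => mem_univ _) ?_ ?_
    · intro P hP Q hQ h1
      rw [mem_filter] at hP hQ
      exact eq_of_two h hl (hP.2.trans hQ.2.symm) h1
    · intro w _
      obtain ⟨P, h1, h2⟩ := ex_point h hl v w
      exact ⟨P, by simp [h1], h2⟩
  rw [this]
  simp

/-- equal or not joined -/
def Rl (f : Fin 36 → Fin 6 → Fin 6) (P Q : Fin 36) : Prop := P = Q ∨ ∀ k, f P k ≠ f Q k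

theorem Rl.symm {P Q : Fin 36} (h : Rl f P Q) : Rl f Q P := by
  rcases h with h | h
  · exact Or.inl h.symm
  · exact Or.inr fun k => (h k).symm

theorem Rl.trans (h : Hy f) {P Q R : Fin 36} (h1 : Rl f P Q) (h2 : Rl f Q R) : Rl f P R := by
  rcases h1 with rfl | h1
  · exact h2
  rcases h2 with rfl | h2
  · exact Or.inr h1
  by_cases hPR : P = R
  · exact Or.inl hPR
  right
  intro k hk
  -- the line through `P` and `R`
  have hex : ∀ l : Fin 6, ∃ S, f S k = f P k ∧ (l ≠ k → f S l = f Q l) := by
    intro l
    by_cases hl : l = k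
    · exact ⟨P, rfl, fun h => absurd hl h⟩
    · obtain ⟨S, h3, h4⟩ := ex_point h (Ne.symm hl) (f P k) (f Q l)
      exact ⟨S, h3, fun _ => h4⟩
  choose S hS1 hS2 using hex
  set T : Finset (Fin 36) := (univ.erase k).image S with hT
  have hTc : T.card = 5 := by
    rw [hT, Finset.card_image_of_injOn, Finset.card_erase_of_mem (mem_univ _)]
    · simp
    · intro a ha b hb hab
      have ha' : a ≠ k := by simpa using ha
      have hb' : b ≠ k := by simpa using hb
      by_contra hne
      have h3 : S a = Q := eq_of_two h hne (hS2 a ha') (by rw [hab]; exact hS2 b hb')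
      have h4 := hS1 a
      rw [h3] at h4
      exact h1 k h4.symm
  have hPT : P ∉ T := by
    intro hP
    rw [hT, mem_image] at hP
    obtain ⟨l, hl, hl2⟩ := hP
    have hl' : l ≠ k := by simpa using hl
    exact h1 l (by rw [← hl2]; exact hS2 l hl')
  have hRT : R ∉ T := by
    intro hR
    rw [hT, mem_image] at hR
    obtain ⟨l, hl, hl2⟩ := hR
    have hl' : l ≠ k := by simpa using hl
    exact h2 l (by rw [← hl2]; exact (hS2 l hl').symm)
  have hsub : insert P (insert R T) ⊆ univ.filter (fun S => f S k = f P k) := by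
    intro x hx
    rw [mem_filter]
    refine ⟨mem_univ _, ?_⟩
    rw [mem_insert, mem_insert] at hx
    rcases hx with rfl | rfl | hx
    · rfl
    · exact hk.symm
    · rw [hT, mem_image] at hx
      obtain ⟨l, -, rfl⟩ := hx
      exact hS1 l
  have hc := Finset.card_le_card hsub
  rw [line_card h, Finset.card_insert_of_notMem, Finset.card_insert_of_notMem hRT, hTc] at hc
  · omega
  · rw [mem_insert]
    rintro (h3 | h3)
    · exact hPR h3
    · exact hPT h3

open Classical in
theorem class_card (h : Hy f) (P : Fin 36) : (univ.filter (fun Q => Rl f P Q)).card = 6 := by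
  have h1 : ((univ : Finset (Fin 6)).biUnion
      (fun k => (univ.filter (fun Q => f Q k = f P k)).erase P)).card = 30 := by
    rw [Finset.card_biUnion]
    · have : ∀ k ∈ (univ : Finset (Fin 6)),
          ((univ.filter (fun Q => f Q k = f P k)).erase P).card = 5 := by
        intro k _
        rw [Finset.card_erase_of_mem (by simp), line_card h]
      rw [Finset.sum_congr rfl this]
      simp
    · intro k _ l _ hkl
      rw [Function.onFun, Finset.disjoint_left]
      intro Q hQ hQ'
      rw [mem_erase, mem_filter] at hQ hQ'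
      exact hQ.1 (eq_of_two h hkl hQ.2.2 hQ'.2.2)
  have h2 : univ.filter (fun Q => Rl f P Q) = ((univ : Finset (Fin 6)).biUnion
      (fun k => (univ.filter (fun Q => f Q k = f P k)).erase P))ᶜ := by
    ext Q
    rw [mem_filter, mem_compl, mem_biUnion]
    constructor
    · rintro ⟨-, h3⟩ ⟨k, -, h4⟩
      rw [mem_erase, mem_filter] at h4
      rcases h3 with rfl | h3
      · exact h4.1 rfl
      · exact h3 k h4.2.2.symm
    · intro h3
      refine ⟨mem_univ _, ?_⟩
      by_cases hPQ : P = Q
      · exact Or.inl hPQ
      · right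
        intro k hk
        apply h3
        refine ⟨k, mem_univ _, ?_⟩
        rw [mem_erase, mem_filter]
        exact ⟨fun h => hPQ h.symm, mem_univ _, hk.symm⟩
  rw [h2, Finset.card_compl, h1]
  simp

/-- the seventh coordinate -/
theorem seventh (h : Hy f) : ∃ g : Fin 36 → Fin 6, (∀ P Q, g P = g Q ↔ Rl f P Q) ∧
    ∀ v, (univ.filter (fun P => g P = v)).card = 6 := by
  classical
  let s : Setoid (Fin 36) := ⟨Rl f, fun _ => Or.inl rfl, fun h1 => h1.symm, fun h1 h2 => h1.trans h h2⟩
  have hfib : ∀ c : Quotient s, (univ.filter (fun P => (Quotient.mk s P) = c)).card = 6 := by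
    intro c
    obtain ⟨P, rfl⟩ := Quotient.exists_rep c
    rw [← class_card h P]
    congr 1
    ext Q
    rw [mem_filter, mem_filter]
    constructor
    · rintro ⟨h1, h2⟩
      exact ⟨h1, (Quotient.exact h2.symm : s.r P Q)⟩
    · rintro ⟨h1, h2⟩
      exact ⟨h1, (Quotient.sound (show s.r P Q from h2)).symm⟩
  have hcard : Fintype.card (Quotient s) = 6 := by
    have h1 := Finset.card_eq_sum_card_fiberwise (f := fun P => Quotient.mk s P)
      (s := (univ : Finset (Fin 36))) (t := (univ : Finset (Quotient s)))
      (fun _ _ => Finset.mem_coe.2 (mem_univ _))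
    rw [Finset.sum_congr rfl (fun c _ => hfib c)] at h1
    simp at h1
    omega
  let e : Quotient s ≃ Fin 6 := Fintype.equivFinOfCardEq hcard
  refine ⟨fun P => e (Quotient.mk s P), fun P Q => ?_, fun v => ?_⟩
  · rw [e.injective.eq_iff]
    exact ⟨fun h1 => (Quotient.exact h1 : s.r P Q), fun h1 => Quotient.sound (show s.r P Q from h1)⟩
  · have h3 := hfib (e.symm v)
    have h4 : (univ.filter (fun P => (fun P => e (Quotient.mk s P)) P = v)) =
        univ.filter (fun P => (Quotient.mk s P) = e.symm v) := by
      ext P
      simp only [mem_filter, mem_univ, true_and]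
      exact (Equiv.eq_symm_apply e).symm
    rw [h4]
    exact h3

/-- incidence -/
def inc (F : Fin 36 → Option (Fin 6) → Fin 6) :
    Fin 36 ⊕ Option (Fin 6) → Option (Option (Fin 6) × Fin 6) → Bool
  | .inl P, some (k, v) => decide (F P k = v)
  | .inl _, none => false
  | .inr k', some (k, _) => decide (k' = k)
  | .inr _, none => true

theorem card_equiv' {α β : Type} [Fintype α] [Fintype β] (e : α ≃ β) (p : α → Bool) :
    (univ.filter fun x : β => p (e.symm x) = true).card = (univ.filter fun x => p x = true).card := by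
  refine Finset.card_bij (fun x _ => e.symm x) ?_ ?_ ?_
  · intro x hx
    rw [mem_filter] at hx ⊢
    exact ⟨mem_univ _, hx.2⟩
  · intro x _ y _ hxy
    exact e.symm.injective hxy
  · intro y hy
    rw [mem_filter] at hy
    exact ⟨e y, by rw [mem_filter]; exact ⟨mem_univ _, by rw [e.symm_apply_apply]; exact hy.2⟩,
      e.symm_apply_apply y⟩

section counts

variable (F : Fin 36 → Option (Fin 6) → Fin 6)

theorem cnt_line (h1 : ∀ k v, (univ.filter (fun P => F P k = v)).card = 6)
    (L : Option (Option (Fin 6) × Fin 6)) :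
    (univ.filter fun p => inc F p L = true).card = 7 := by
  rw [Finset.card_filter, Fintype.sum_sum_type]
  rcases L with _ | ⟨k, v⟩
  · simp [inc]
  · simp only [inc, decide_eq_true_eq]
    rw [← Finset.card_filter, h1]
    simp

theorem cnt_point (p : Fin 36 ⊕ Option (Fin 6)) :
    (univ.filter fun L => inc F p L = true).card = 7 := by
  rw [Finset.card_filter, Fintype.sum_option, Fintype.sum_prod_type]
  rcases p with P | k
  · simp only [inc, decide_eq_true_eq]
    simp
  · simp only [inc, decide_eq_true_eq]
    rw [Finset.sum_eq_single k]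
    · simp
    · intro l _ hl
      simp [Ne.symm hl]
    · simp

theorem cnt_pair (h2 : ∀ P Q, P ≠ Q → (univ.filter (fun k => F P k = F Q k)).card = 1)
    (p q : Fin 36 ⊕ Option (Fin 6)) (hne : p ≠ q) :
    (univ.filter fun L => (inc F p L && inc F q L) = true).card = 1 := by
  rw [Finset.card_filter, Fintype.sum_option, Fintype.sum_prod_type]
  rcases p with P | k <;> rcases q with Q | l
  · have hPQ : P ≠ Q := fun h => hne (by rw [h])
    have h3 := h2 P Q hPQ
    rw [Finset.card_filter] at h3
    simp only [inc, Bool.and_eq_true, decide_eq_true_eq]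
    simp only [Bool.false_eq_true, and_self, if_false, zero_add]
    refine Eq.trans ?_ h3
    refine Finset.sum_congr rfl fun k _ => ?_
    by_cases hk : F P k = F Q k
    · rw [if_pos hk, Finset.sum_eq_single (F P k)]
      · rw [if_pos ⟨rfl, hk.symm⟩]
      · intro v _ hv
        rw [if_neg]
        rintro ⟨h4, -⟩
        exact hv h4.symm
      · simp
    · rw [if_neg hk]
      refine Finset.sum_eq_zero fun v _ => ?_
      rw [if_neg]
      rintro ⟨h4, h5⟩
      exact hk (h4.trans h5.symm)
  · simp only [inc, Bool.and_eq_true, decide_eq_true_eq, Bool.false_eq_true, false_and, if_false,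
      zero_add]
    rw [Finset.sum_eq_single l, Finset.sum_eq_single (F P l)]
    · simp
    · intro v _ hv
      rw [if_neg]
      rintro ⟨h4, -⟩
      exact hv h4.symm
    · simp
    · intro k _ hk
      refine Finset.sum_eq_zero fun v _ => ?_
      rw [if_neg]
      rintro ⟨-, h5⟩
      exact hk h5.symm
    · simp
  · simp only [inc, Bool.and_eq_true, decide_eq_true_eq, Bool.false_eq_true, and_false, if_false,
      zero_add]
    rw [Finset.sum_eq_single k, Finset.sum_eq_single (F Q k)]
    · simp
    · intro v _ hv
      rw [if_neg]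
      rintro ⟨-, h4⟩
      exact hv h4.symm
    · simp
    · intro l _ hl
      refine Finset.sum_eq_zero fun v _ => ?_
      rw [if_neg]
      rintro ⟨h5, -⟩
      exact hl h5.symm
    · simp
  · have hkl : k ≠ l := fun h => hne (by rw [h])
    simp only [inc, Bool.and_eq_true, decide_eq_true_eq, and_self, if_true]
    rw [Finset.sum_eq_zero fun a _ => Finset.sum_eq_zero fun v _ =>
      if_neg (fun h => hkl (h.1.trans h.2.symm)), add_zero]

end counts

theorem design (F : Fin 36 → Option (Fin 6) → Fin 6)
    (h1 : ∀ k v, (univ.filter (fun P => F P k = v)).card = 6)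
    (h2 : ∀ P Q, P ≠ Q → (univ.filter (fun k => F P k = F Q k)).card = 1) :
    IsSymmetricDesign 43 7 1 := by
  let eP : Fin 36 ⊕ Option (Fin 6) ≃ Fin 43 := Fintype.equivFinOfCardEq (by simp)
  let eL : Option (Option (Fin 6) × Fin 6) ≃ Fin 43 := Fintype.equivFinOfCardEq (by simp)
  refine ⟨by norm_num, 7, fun i => univ.filter fun x => inc F (eP.symm x) (eL.symm i) = true,
    ?_, ?_, ?_⟩
  · intro i
    rw [card_equiv' eP (fun p => inc F p (eL.symm i)), cnt_line F h1]
  · intro x
    have h3 : (univ.filter fun i => x ∈ univ.filter fun x => inc F (eP.symm x) (eL.symm i) = true) =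
        univ.filter fun i => inc F (eP.symm x) (eL.symm i) = true := by
      ext i
      simp
    rw [h3, card_equiv' eL (fun L => inc F (eP.symm x) L), cnt_point]
  · intro x y hxy
    have h3 : (univ.filter fun i => (x ∈ univ.filter fun x => inc F (eP.symm x) (eL.symm i) = true) ∧
        y ∈ univ.filter fun x => inc F (eP.symm x) (eL.symm i) = true) =
        univ.filter fun i => (inc F (eP.symm x) (eL.symm i) && inc F (eP.symm y) (eL.symm i)) = true := by
      ext i
      simp
    rw [h3, card_equiv' eL (fun L => inc F (eP.symm x) L && inc F (eP.symm y) L),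
      cnt_pair F h2 _ _ fun h => hxy (eP.symm.injective h)]

theorem noCode : Pool.Agent.W213.Ly.NoCode := by
  classical
  intro f h
  have h' : Hy f := h
  obtain ⟨g, hg1, hg2⟩ := seventh h'
  set F : Fin 36 → Option (Fin 6) → Fin 6 := fun P k => k.elim (g P) (f P) with hF
  have hd : IsSymmetricDesign 43 7 1 := by
    refine design F ?_ ?_
    · rintro (_ | k) v
      · exact hg2 v
      · exact line_card h' k v
    · intro P Q hPQ
      rw [Finset.card_eq_one]
      by_cases hR : Rl f P Q
      · refine ⟨none, ?_⟩
        ext k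
        rw [mem_filter, mem_singleton]
        constructor
        · rintro ⟨-, hk⟩
          rcases k with _ | k
          · rfl
          · rcases hR with hR | hR
            · exact absurd hR hPQ
            · exact absurd hk (hR k)
        · rintro rfl
          exact ⟨mem_univ _, (hg1 P Q).2 hR⟩
      · have : ∃ k, f P k = f Q k := by
          by_contra hc
          push Not at hc
          exact hR (Or.inr hc)
        obtain ⟨k, hk⟩ := this
        refine ⟨some k, ?_⟩
        ext l
        rw [mem_filter, mem_singleton]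
        constructor
        · rintro ⟨-, hl⟩
          rcases l with _ | l
          · exact absurd ((hg1 P Q).1 hl) hR
          · rw [h P Q hPQ l k hl hk]
        · rintro rfl
          exact ⟨mem_univ _, hk⟩
  have h3 := brc_local (p := 3) hd (by norm_num) (by norm_num) (by norm_num) (by norm_num)
    (by norm_num) (by norm_num) (by norm_num)
  have h4 := h3.2
  norm_num at h4
  revert h4
  decide

end Pool.Agent.W639.Ly
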